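import Pool.Agent.Helper5.LCU.Stmts

set_option autoImplicit false

open Finset

namespace Pool.Agent.Helper40.LCU
open Pool.Agent.Helper5.LCU

theorem choose_cross (i j s : ℕ) (hij : i ≤ j) (d : ℕ) :
    i.choose (s + d) * j.choose s ≤ i.choose s * j.choose (s + d) := by
  induction d with
  | zero => simp
  | succ d ih =>
    have h1 := Nat.choose_succ_right_eq i (s + d)
    have h2 := Nat.choose_succ_right_eq j (s + d)
    have hk : i - (s + d) ≤ j - (s + d) := Nat.sub_le_sub_right hij _
    have h3 : (i.choose (s + d + 1) * j.choose s) * (s + d + 1) ≤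
        (i.choose s * j.choose (s + d + 1)) * (s + d + 1) := by
      calc (i.choose (s + d + 1) * j.choose s) * (s + d + 1)
          = (i.choose (s + d + 1) * (s + d + 1)) * j.choose s := by ring
        _ = (i.choose (s + d) * j.choose s) * (i - (s + d)) := by rw [h1]; ring
        _ ≤ (i.choose s * j.choose (s + d)) * (j - (s + d)) := Nat.mul_le_mul ih hk
        _ = i.choose s * (j.choose (s + d + 1) * (s + d + 1)) := by rw [h2]; ring
        _ = (i.choose s * j.choose (s + d + 1)) * (s + d + 1) := by ring
    exact Nat.le_of_mul_le_mul_right h3 (Nat.succ_pos _)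

theorem st_K2 (hCB : ST_CB) : ST_K2 := by
  intro b hb n q i j hij hjn
  have h := hCB (j + 1) (fun r => (i.choose r : ℝ)) (fun r => (j.choose r : ℝ))
    (fun r => b (q + n - r)) (fun r => b (q + 1 + n - r)) ?_ ?_
  · have e : ∀ g : ℕ → ℝ, ∑ r ∈ range (i + 1), (i.choose r : ℝ) * g r =
        ∑ r ∈ range (j + 1), (i.choose r : ℝ) * g r := by
      intro g
      refine sum_subset (range_subset_range.2 (by omega)) fun r _ hr => ?_
      rw [mem_range] at hr
      rw [Nat.choose_eq_zero_of_lt (by omega)]
      simp
    rw [e fun r => b (q + 1 + n - r), e fun r => b (q + n - r), mul_comm]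
    exact h
  · intro s t hst _
    have hc := choose_cross i j s hij.le (t - s)
    rw [show s + (t - s) = t by omega] at hc
    have hc' : ((i.choose t : ℝ)) * (j.choose s : ℝ) ≤ (i.choose s : ℝ) * (j.choose t : ℝ) := by
      exact_mod_cast hc
    simpa using hc'
  · intro s t hst ht
    have h1 := hb.2 (q + n - t) (q + n - s - 1) (by omega)
    rw [show q + n - s - 1 + 2 = q + 1 + n - s by omega,
      show q + n - s - 1 + 1 = q + n - s by omega,
      show q + n - t + 1 = q + 1 + n - t by omega] at h1
    simp only [sub_nonneg]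
    linarith [mul_comm (b (q + n - s)) (b (q + 1 + n - t))]

end Pool.Agent.Helper40.LCU
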