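import Pool.Agent.Helper5.LCU.Stmts

set_option autoImplicit false

open Finset Polynomial

namespace Pool.Agent.Helper40.LCU
open Pool.Agent.Helper5.LCU

theorem crec (P : ℝ[X]) (r x : ℕ) : (P * FR r).coeff x =
    ∑ i ∈ Ico 1 r, if i ≤ x then (1 / (i.factorial : ℝ)) * P.coeff (x - i) else 0 := by
  unfold FR
  rw [mul_sum, finsetSum_coeff]
  refine sum_congr rfl fun i _ => ?_
  rw [← C_mul_X_pow_eq_monomial, ← mul_assoc, coeff_mul_X_pow']
  split_ifs
  · rw [mul_comm P, coeff_C_mul]
  · rfl

theorem dcoeff (r x : ℕ) : (derivative (FR r)).coeff x =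
    if x + 1 < r then 1 / (x.factorial : ℝ) else 0 := by
  rw [coeff_derivative]
  unfold FR
  rw [finsetSum_coeff]
  simp only [coeff_monomial]
  rw [sum_ite_eq']
  by_cases h : x + 1 < r
  · rw [if_pos (by simp [h]), if_pos h, Nat.factorial_succ]
    push_cast
    have h1 : ((x : ℝ) + 1) ≠ 0 := by positivity
    have h2 : (x.factorial : ℝ) ≠ 0 := by positivity
    field_simp
  · rw [if_neg (by simp [h]), if_neg h, zero_mul]

theorem urec (r j x : ℕ) : (derivative (FR r) * (FR r) ^ (j + 1)).coeff x =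
    ∑ i ∈ Ico 1 r, if i ≤ x then (1 / (i.factorial : ℝ)) *
      (derivative (FR r) * (FR r) ^ j).coeff (x - i) else 0 := by
  rw [pow_succ, ← mul_assoc, crec]

theorem usupp (r : ℕ) (hr : 3 ≤ r) : ∀ j x : ℕ,
    0 ≤ (derivative (FR r) * (FR r) ^ j).coeff x ∧
    ((derivative (FR r) * (FR r) ^ j).coeff x ≠ 0 → j ≤ x ∧ x ≤ j * (r - 1) + (r - 2)) ∧
    (j ≤ x → x ≤ j * (r - 1) + (r - 2) → 0 < (derivative (FR r) * (FR r) ^ j).coeff x) := by
  intro j
  induction j with
  | zero =>
    intro x
    rw [pow_zero, mul_one, dcoeff]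
    by_cases h : x + 1 < r
    · rw [if_pos h]
      have : (0 : ℝ) < 1 / (x.factorial : ℝ) := by positivity
      exact ⟨this.le, fun _ => ⟨Nat.zero_le _, by omega⟩, fun _ _ => this⟩
    · rw [if_neg h]
      exact ⟨le_rfl, fun h => absurd rfl h, fun _ h2 => absurd h2 (by omega)⟩
  | succ j ih =>
    intro x
    have hnn : ∀ i ∈ Ico 1 r, 0 ≤ (if i ≤ x then (1 / (i.factorial : ℝ)) *
        (derivative (FR r) * (FR r) ^ j).coeff (x - i) else 0) := by
      intro i _
      split_ifs
      · exact mul_nonneg (by positivity) (ih (x - i)).1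
      · exact le_rfl
    have hm : (j + 1) * (r - 1) = j * (r - 1) + (r - 1) := by ring
    rw [urec]
    refine ⟨sum_nonneg hnn, fun h => ?_, fun h1 h2 => ?_⟩
    · obtain ⟨i, hi, hne⟩ := exists_ne_zero_of_sum_ne_zero h
      rw [mem_Ico] at hi
      have hix : i ≤ x := by
        by_contra hc
        rw [if_neg hc] at hne
        exact hne rfl
      rw [if_pos hix] at hne
      have := (ih (x - i)).2.1 (right_ne_zero_of_mul hne)
      rw [hm]
      omega
    · rw [hm] at h2
      refine sum_pos' hnn ?_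
      by_cases hx : x - 1 ≤ j * (r - 1) + (r - 2)
      · refine ⟨1, by rw [mem_Ico]; omega, ?_⟩
        rw [if_pos (by omega)]
        exact mul_pos (by positivity) ((ih (x - 1)).2.2 (by omega) hx)
      · have hj : j ≤ j * (r - 1) := Nat.le_mul_of_pos_right _ (by omega)
        refine ⟨r - 1, by rw [mem_Ico]; omega, ?_⟩
        rw [if_pos (by omega)]
        exact mul_pos (by positivity) ((ih (x - (r - 1))).2.2 (by omega) (by omega))

theorem st_UF2 (hC : ST_UFC) (hL : ST_LCZ) (hM : ST_MAJ) : ST_UF2 := by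
  intro r x hr
  have hu := usupp r hr
  refine hL _ (fun j => (hu j x).1) (fun j => ?_) (fun j1 j2 j3 h12 h23 h1 h3 => ?_)
  · rw [urec r (j + 1) x, urec r j x, pow_two, sum_mul_sum, mul_sum]
    refine sum_le_sum fun i _ => ?_
    by_cases hi : i ≤ x
    · rw [if_pos hi, if_pos hi, urec, mul_sum, mul_sum]
      refine sum_le_sum fun k _ => ?_
      by_cases hk : k ≤ x
      · by_cases hk2 : k ≤ x - i
        · rw [if_pos hk, if_pos hk2]
          have hmaj := hM _ (hC r j hr) (x - i - k) x (x - i) (x - k) (by omega) (by omega)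
            (by omega)
          have hf : (0 : ℝ) ≤ 1 / (i.factorial : ℝ) * (1 / (k.factorial : ℝ)) := by positivity
          have := mul_le_mul_of_nonneg_left hmaj hf
          refine le_trans (le_of_eq ?_) (this.trans (le_of_eq ?_))
          · ring
          · ring
        · rw [if_neg hk2, if_pos hk, mul_zero, mul_zero]
          exact mul_nonneg (mul_nonneg (by positivity) (hu _ _).1)
            (mul_nonneg (by positivity) (hu _ _).1)
      · rw [if_neg hk, if_neg (by omega), mul_zero, mul_zero, mul_zero]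
    · simp [hi]
  · have a1 := (hu j1 x).2.1 h1.ne'
    have a3 := (hu j3 x).2.1 h3.ne'
    have hm : j1 * (r - 1) ≤ j2 * (r - 1) := Nat.mul_le_mul_right _ h12.le
    exact (hu j2 x).2.2 (by omega) (by omega)

end Pool.Agent.Helper40.LCU
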